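import Mathlib

set_option autoImplicit false
open scoped Pointwise BigOperators

namespace Pool.Agent.R539.NP

/-- The progression `{a + ∑ i, m i • v i : 0 ≤ m i < N i}` of rank `d`. -/
noncomputable def prog {G : Type*} [AddCommGroup G] [DecidableEq G] {d : ℕ} (a : G) (v : Fin d → G)
    (N : Fin d → ℕ) : Finset G :=
  (Fintype.piFinset fun i => Finset.range (N i)).image fun m => a + ∑ i, m i • v i

/-- The points `x` of the lattice `{x ∈ ℤ ^ n : q ∣ ∑ g i x i}` in the cube `|x i| ≤ L`. -/
noncomputable def cubePoints (n q : ℕ) (g : Fin n → ℤ) (L : ℤ) : Finset (Fin n → ℤ) :=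
  (Fintype.piFinset fun _ => Finset.Icc (-L) L).filter fun x => (q : ℤ) ∣ ∑ i, g i * x i

theorem mem_cube {n q : ℕ} {g : Fin n → ℤ} {L : ℤ} {x : Fin n → ℤ} :
    x ∈ cubePoints n q g L ↔ (∀ i, |x i| ≤ L) ∧ (q : ℤ) ∣ ∑ i, g i * x i := by
  simp [cubePoints, Fintype.mem_piFinset, abs_le]

theorem sum_half (n : ℕ) :
    ∑ j ∈ Finset.Icc (-(n : ℤ)) n, (1 / 2 : ℝ) ^ j.natAbs = 3 - 2 * (1 / 2) ^ n := by
  induction n with
  | zero => norm_num
  | succ n ih =>
    have h : Finset.Icc (-((n + 1 : ℕ) : ℤ)) ((n + 1 : ℕ) : ℤ)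
        = insert ((n + 1 : ℕ) : ℤ) (insert (-((n + 1 : ℕ) : ℤ)) (Finset.Icc (-(n : ℤ)) n)) := by
      ext j
      simp only [Finset.mem_Icc, Finset.mem_insert]
      push_cast
      omega
    rw [h, Finset.sum_insert, Finset.sum_insert, ih]
    · have e1 : (((n + 1 : ℕ) : ℤ)).natAbs = n + 1 := by omega
      have e2 : (-((n + 1 : ℕ) : ℤ)).natAbs = n + 1 := by omega
      rw [e1, e2, pow_succ]
      ring
    · simp only [Finset.mem_Icc]; push_cast; omega
    · simp only [Finset.mem_Icc, Finset.mem_insert]; push_cast; omega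

/-- The integer vectors with `∑ |x i| ≤ n`. -/
noncomputable def small (n : ℕ) : Finset (Fin n → ℤ) :=
  (Fintype.piFinset fun _ => Finset.Icc (-(n : ℤ)) n).filter fun x => ∑ i, (x i).natAbs ≤ n

theorem mem_small {n : ℕ} {x : Fin n → ℤ} (h : ∑ i, (x i).natAbs ≤ n) : x ∈ small n := by
  simp only [small, Finset.mem_filter, Fintype.mem_piFinset, Finset.mem_Icc]
  refine ⟨fun i => ?_, h⟩
  have : (x i).natAbs ≤ ∑ i, (x i).natAbs :=
    Finset.single_le_sum (f := fun i => (x i).natAbs) (fun _ _ => Nat.zero_le _) (Finset.mem_univ i)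
  constructor <;> omega

theorem card_small (n : ℕ) : (small n).card ≤ 8 ^ n := by
  have h1 : ((small n).card : ℝ) * (1 / 2) ^ n
      ≤ ∑ x ∈ Fintype.piFinset fun _ : Fin n => Finset.Icc (-(n : ℤ)) n,
        ∏ i, (1 / 2 : ℝ) ^ (x i).natAbs := by
    calc ((small n).card : ℝ) * (1 / 2) ^ n
        = ∑ x ∈ small n, (1 / 2 : ℝ) ^ n := by rw [Finset.sum_const, nsmul_eq_mul]
      _ ≤ ∑ x ∈ small n, ∏ i, (1 / 2 : ℝ) ^ (x i).natAbs := by
          apply Finset.sum_le_sum
          intro x hx
          rw [Finset.prod_pow_eq_pow_sum]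
          apply pow_le_pow_of_le_one (by norm_num) (by norm_num)
          exact (Finset.mem_filter.1 hx).2
      _ ≤ _ := by
          apply Finset.sum_le_sum_of_subset_of_nonneg (Finset.filter_subset _ _)
          intro x _ _
          positivity
  rw [← Finset.prod_univ_sum (fun _ : Fin n => Finset.Icc (-(n : ℤ)) n)
    (fun _ j => (1 / 2 : ℝ) ^ j.natAbs)] at h1
  simp only [sum_half, Finset.prod_const, Finset.card_univ, Fintype.card_fin] at h1
  have h2 : (3 - 2 * (1 / 2 : ℝ) ^ n) ^ n ≤ 4 ^ n := by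
    have h0 : (1 / 2 : ℝ) ^ n ≤ 1 := pow_le_one₀ (by norm_num) (by norm_num)
    have h00 : (0 : ℝ) < (1 / 2 : ℝ) ^ n := by positivity
    apply pow_le_pow_left₀ (by linarith)
    linarith
  have h3 : ((small n).card : ℝ) ≤ 8 ^ n := by
    have h4 : ((small n).card : ℝ) * (1 / 2) ^ n ≤ 4 ^ n := h1.trans h2
    have h5 : ((small n).card : ℝ) = ((small n).card : ℝ) * (1 / 2) ^ n * 2 ^ n := by
      rw [mul_assoc, ← mul_pow]; norm_num
    rw [h5]
    calc ((small n).card : ℝ) * (1 / 2) ^ n * 2 ^ n ≤ 4 ^ n * 2 ^ n := by gcongr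
      _ = 8 ^ n := by rw [← mul_pow]; norm_num
  exact_mod_cast h3

/-- Number of the linear forms over `ZMod q` which vanish at a nonzero point. -/
theorem card_forms {n q : ℕ} [Fact q.Prime] (y : Fin n → ZMod q) (hy : y ≠ 0) :
    (Finset.univ.filter fun g : Fin n → ZMod q => ∑ i, g i * y i = 0).card * q ≤ q ^ n := by
  obtain ⟨k, hk⟩ : ∃ k, y k ≠ 0 := by
    by_contra h
    push Not at h
    exact hy (funext h)
  -- the translates of the solution set by multiples of a unit vector are disjoint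
  have hinj : Set.InjOn (fun p : (Fin n → ZMod q) × ZMod q => p.1 + Pi.single k p.2)
      (((Finset.univ.filter fun g : Fin n → ZMod q => ∑ i, g i * y i = 0) ×ˢ
        (Finset.univ : Finset (ZMod q)) : Finset _) : Set _) := by
    rintro ⟨g, t⟩ hg ⟨g', t'⟩ hg' h
    simp only [Finset.coe_product, Set.mem_prod, Finset.mem_coe, Finset.mem_filter,
      Finset.mem_univ, true_and, and_true] at hg hg'
    simp only at h
    have h1 : ∑ i, (g + Pi.single k t : Fin n → ZMod q) i * y i
        = ∑ i, (g' + Pi.single k t' : Fin n → ZMod q) i * y i := by rw [h]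
    have h2 : ∀ (g : Fin n → ZMod q) (t : ZMod q), ∑ i, (g + Pi.single k t : Fin n → ZMod q) i * y i
        = ∑ i, g i * y i + t * y k := by
      intro g t
      simp only [Pi.add_apply, add_mul, Finset.sum_add_distrib]
      congr 1
      rw [Finset.sum_eq_single k]
      · simp
      · intro b _ hb
        simp [Pi.single_apply, hb]
      · simp
    rw [h2, h2, hg, hg', zero_add, zero_add] at h1
    have h3 : t = t' := mul_right_cancel₀ hk h1
    subst h3
    have h4 : g = g' := add_right_cancel h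
    rw [h4]
  have := Finset.card_le_card_of_injOn _ (t := (Finset.univ : Finset (Fin n → ZMod q)))
    (fun _ _ => Finset.mem_univ _) hinj
  rw [Finset.card_product, Finset.card_univ, Finset.card_univ, ZMod.card,
    Fintype.card_fun, ZMod.card, Fintype.card_fin] at this
  exact this

/-- A lattice `{x : q ∣ ∑ g i x i}` without short vectors. -/
theorem exists_form {n q : ℕ} (hq : q.Prime) (hn : 0 < n) (hqn : 8 ^ n < q) :
    ∃ g : Fin n → ℤ, ∀ x : Fin n → ℤ, x ≠ 0 → (q : ℤ) ∣ ∑ i, g i * x i →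
      n < ∑ i, (x i).natAbs := by
  haveI : Fact q.Prime := ⟨hq⟩
  by_contra hcon
  push Not at hcon
  have key : ∀ g : Fin n → ZMod q, ∃ x : Fin n → ℤ, x ≠ 0 ∧ x ∈ small n ∧
      ∑ i, g i * ((x i : ℤ) : ZMod q) = 0 := by
    intro g
    obtain ⟨x, hx0, hdvd, hx⟩ := hcon fun i => ((g i).val : ℤ)
    refine ⟨x, hx0, mem_small hx, ?_⟩
    have := (ZMod.intCast_zmod_eq_zero_iff_dvd _ q).2 hdvd
    push_cast at this
    simpa using this
  have hcover : (Finset.univ : Finset (Fin n → ZMod q)) ⊆
      ((small n).filter (· ≠ 0)).biUnion fun x =>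
        Finset.univ.filter fun g : Fin n → ZMod q => ∑ i, g i * ((x i : ℤ) : ZMod q) = 0 := by
    intro g _
    obtain ⟨x, hx0, hx, h⟩ := key g
    simp only [Finset.mem_biUnion, Finset.mem_filter, Finset.mem_univ, true_and]
    exact ⟨x, ⟨hx, hx0⟩, h⟩
  have h1 := (Finset.card_le_card hcover).trans Finset.card_biUnion_le
  rw [Finset.card_univ, Fintype.card_fun, ZMod.card, Fintype.card_fin] at h1
  have h2 : ∀ x ∈ (small n).filter (· ≠ 0),
      (Finset.univ.filter fun g : Fin n → ZMod q =>
        ∑ i, g i * ((x i : ℤ) : ZMod q) = 0).card * q ≤ q ^ n := by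
    intro x hx
    apply card_forms
    intro h
    rw [Finset.mem_filter] at hx
    apply hx.2
    funext i
    have hi := congrFun h i
    simp only [Pi.zero_apply] at hi
    rw [ZMod.intCast_zmod_eq_zero_iff_dvd] at hi
    have hxs := (Finset.mem_filter.1 hx.1).1
    rw [Fintype.mem_piFinset] at hxs
    have hxi := Finset.mem_Icc.1 (hxs i)
    have hnq : (n : ℤ) < q := by
      have : n < 8 ^ n := Nat.lt_pow_self (by norm_num)
      exact_mod_cast this.trans hqn
    simp only [Pi.zero_apply]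
    exact Int.eq_zero_of_abs_lt_dvd hi (by rw [abs_lt]; constructor <;> omega)
  have h3 : q ^ n * q ≤ 8 ^ n * q ^ n := by
    calc q ^ n * q ≤ (∑ x ∈ (small n).filter (· ≠ 0),
          (Finset.univ.filter fun g : Fin n → ZMod q =>
            ∑ i, g i * ((x i : ℤ) : ZMod q) = 0).card) * q := Nat.mul_le_mul_right _ h1
      _ = ∑ x ∈ (small n).filter (· ≠ 0),
          (Finset.univ.filter fun g : Fin n → ZMod q =>
            ∑ i, g i * ((x i : ℤ) : ZMod q) = 0).card * q := Finset.sum_mul _ _ _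
      _ ≤ ∑ x ∈ (small n).filter (· ≠ 0), q ^ n := Finset.sum_le_sum h2
      _ = ((small n).filter (· ≠ 0)).card * q ^ n := by rw [Finset.sum_const, smul_eq_mul]
      _ ≤ 8 ^ n * q ^ n := Nat.mul_le_mul_right _
          ((Finset.card_le_card (Finset.filter_subset _ _)).trans (card_small n))
  have h4 : 8 ^ n * q ^ n < q ^ n * q := by
    rw [mul_comm]
    exact Nat.mul_lt_mul_of_pos_left hqn (pow_pos hq.pos n)
  omega

/-- A set of lattice points of one class in a translate of a cube of half the side. -/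
theorem card_le_of_diff {n q : ℕ} {g : Fin n → ℤ} {L : ℤ} (T : Finset (Fin n → ℤ))
    (h : ∀ x ∈ T, ∀ y ∈ T, x - y ∈ cubePoints n q g L) :
    T.card ≤ (cubePoints n q g L).card := by
  rcases T.eq_empty_or_nonempty with rfl | ⟨y, hy⟩
  · simp
  · exact Finset.card_le_card_of_injOn (fun x => x - y) (fun x hx => h x hx y hy)
      (fun a _ b _ hab => sub_left_injective hab)

theorem pow_le {n q : ℕ} (hq : 0 < q) (g : Fin n → ℤ) (L : ℕ) :
    (L + 1) ^ n ≤ q * (cubePoints n q g L).card := by
  classical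
  have hB : (Fintype.piFinset fun _ : Fin n => Finset.Icc (0 : ℤ) L).card = (L + 1) ^ n := by
    rw [Fintype.card_piFinset_const, Int.card_Icc]
    simp
  rw [← hB]
  have hmap : ∀ x ∈ (Fintype.piFinset fun _ : Fin n => Finset.Icc (0 : ℤ) L),
      (∑ i, g i * x i) % (q : ℤ) ∈ Finset.Ico (0 : ℤ) q := by
    intro x _
    rw [Finset.mem_Ico]
    exact ⟨Int.emod_nonneg _ (by exact_mod_cast hq.ne'), Int.emod_lt_of_pos _ (by exact_mod_cast hq)⟩
  rw [Finset.card_eq_sum_card_fiberwise hmap]
  calc _ ≤ ∑ _r ∈ Finset.Ico (0 : ℤ) q, (cubePoints n q g L).card := by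
        apply Finset.sum_le_sum
        intro r _
        apply card_le_of_diff
        intro x hx y hy
        simp only [Finset.mem_filter, Fintype.mem_piFinset, Finset.mem_Icc] at hx hy
        rw [mem_cube]
        refine ⟨fun i => ?_, ?_⟩
        · have h1 := hx.1 i
          have h2 := hy.1 i
          rw [Pi.sub_apply, abs_le]
          constructor <;> omega
        · have h3 : ∑ i, g i * (x - y) i = ∑ i, g i * x i - ∑ i, g i * y i := by
            simp only [Pi.sub_apply, mul_sub, Finset.sum_sub_distrib]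
          rw [h3]
          exact Int.ModEq.dvd (show (∑ i, g i * y i) % (q : ℤ) = (∑ i, g i * x i) % q by
            rw [hx.2, hy.2])
    _ = q * (cubePoints n q g L).card := by
        rw [Finset.sum_const, Int.card_Ico, smul_eq_mul]
        simp

theorem card_double {n q : ℕ} (g : Fin n → ℤ) (L : ℕ) :
    (cubePoints n q g (2 * L)).card ≤ 4 ^ n * (cubePoints n q g L).card := by
  classical
  have hmap : ∀ x ∈ cubePoints n q g (2 * L),
      (fun i => (x i + 2 * L) / (L + 1)) ∈
        (Fintype.piFinset fun _ : Fin n => Finset.Ico (0 : ℤ) 4) := by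
    intro x hx
    rw [mem_cube] at hx
    rw [Fintype.mem_piFinset]
    intro i
    have h1 := abs_le.1 (hx.1 i)
    rw [Finset.mem_Ico]
    constructor
    · apply Int.ediv_nonneg <;> omega
    · apply Int.ediv_lt_of_lt_mul <;> omega
  rw [Finset.card_eq_sum_card_fiberwise hmap]
  calc _ ≤ ∑ _r ∈ (Fintype.piFinset fun _ : Fin n => Finset.Ico (0 : ℤ) 4),
        (cubePoints n q g L).card := by
        apply Finset.sum_le_sum
        intro r _
        apply card_le_of_diff
        intro x hx y hy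
        rw [Finset.mem_filter, mem_cube] at hx hy
        rw [mem_cube]
        refine ⟨fun i => ?_, ?_⟩
        · have h1 : (x i + 2 * L) / (L + 1) = r i := congrFun hx.2 i
          have h2 : (y i + 2 * L) / (L + 1) = r i := congrFun hy.2 i
          have h3 := Int.emod_add_mul_ediv (x i + 2 * L) (L + 1)
          have h4 := Int.emod_add_mul_ediv (y i + 2 * L) (L + 1)
          have h5 := Int.emod_nonneg (x i + 2 * L) (show (L : ℤ) + 1 ≠ 0 by omega)
          have h6 := Int.emod_nonneg (y i + 2 * L) (show (L : ℤ) + 1 ≠ 0 by omega)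
          have h7 := Int.emod_lt_of_pos (x i + 2 * L) (show (0 : ℤ) < L + 1 by omega)
          have h8 := Int.emod_lt_of_pos (y i + 2 * L) (show (0 : ℤ) < L + 1 by omega)
          rw [h1] at h3
          rw [h2] at h4
          rw [Pi.sub_apply, abs_le]
          constructor <;> linarith
        · have h3 : ∑ i, g i * (x - y) i = ∑ i, g i * x i - ∑ i, g i * y i := by
            simp only [Pi.sub_apply, mul_sub, Finset.sum_sub_distrib]
          rw [h3]
          exact dvd_sub hx.1.2 hy.1.2
    _ = 4 ^ n * (cubePoints n q g L).card := by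
        rw [Finset.sum_const, Fintype.card_piFinset_const, Int.card_Ico, smul_eq_mul]
        simp

theorem add_mem {n q : ℕ} {g : Fin n → ℤ} {L M : ℤ} {x y : Fin n → ℤ}
    (hx : x ∈ cubePoints n q g L) (hy : y ∈ cubePoints n q g M) :
    x + y ∈ cubePoints n q g (L + M) := by
  rw [mem_cube] at hx hy ⊢
  refine ⟨fun i => ?_, ?_⟩
  · exact (abs_add_le _ _).trans (add_le_add (hx.1 i) (hy.1 i))
  · have h3 : ∑ i, g i * (x + y) i = ∑ i, g i * x i + ∑ i, g i * y i := by
      simp only [Pi.add_apply, mul_add, Finset.sum_add_distrib]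
    rw [h3]
    exact dvd_add hx.2 hy.2

theorem neg_mem {n q : ℕ} {g : Fin n → ℤ} {L : ℤ} {x : Fin n → ℤ}
    (hx : x ∈ cubePoints n q g L) : -x ∈ cubePoints n q g L := by
  rw [mem_cube] at hx ⊢
  refine ⟨fun i => ?_, ?_⟩
  · rw [Pi.neg_apply, abs_neg]; exact hx.1 i
  · have h3 : ∑ i, g i * (-x) i = -∑ i, g i * x i := by
      simp only [Pi.neg_apply, mul_neg, Finset.sum_neg_distrib]
    rw [h3]
    exact (dvd_neg).2 hx.2

theorem nsmul_mem {n q : ℕ} {g : Fin n → ℤ} {L : ℤ} (l : ℕ) {x : Fin n → ℤ}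
    (hx : x ∈ l • cubePoints n q g L) : x ∈ cubePoints n q g (l * L) := by
  induction l generalizing x with
  | zero =>
    rw [zero_nsmul, Finset.mem_zero] at hx
    subst hx
    rw [mem_cube]
    refine ⟨fun i => ?_, ?_⟩
    · rw [Pi.zero_apply]; simp
    · simp
  | succ l ih =>
    rw [succ_nsmul, Finset.mem_add] at hx
    obtain ⟨y, hy, z, hz, rfl⟩ := hx
    have := add_mem (ih hy) hz
    push_cast
    rw [add_mul, one_mul]
    exact this

theorem sub_mem {n q : ℕ} {g : Fin n → ℤ} {L : ℤ} (l : ℕ) {x : Fin n → ℤ}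
    (hx : x ∈ l • cubePoints n q g L - l • cubePoints n q g L) :
    x ∈ cubePoints n q g (2 * l * L) := by
  rw [Finset.mem_sub] at hx
  obtain ⟨y, hy, z, hz, rfl⟩ := hx
  have := add_mem (nsmul_mem l hy) (neg_mem (nsmul_mem l hz))
  rw [← sub_eq_add_neg] at this
  convert this using 2
  ring

end Pool.Agent.R539.NP
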